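import Pool.Agent.MP_d50107_co.H61.Final

/-! A linear bound for the number of pieces of an optimal two-level family. -/

namespace Pool.Agent.MP_d50107_co.H25

open Pool.Agent.MP_d50107_co.H61

/-- rate of a piece of size at most `M` -/
theorem rate {l s M a : ℕ} (hs : 1 ≤ s) (h1 : (l + s).choose (l + 1) ≤ M)
    (h2 : M ≤ (l + s + 1).choose (l + 1)) (ha : a ≤ M) :
    (l * M + (l + s + 1).choose (l + 1)) * a ≤ (s + 1) * M * kk (l + 1) a := by
  have e1 : (l + s + 1).choose (l + 1) = (l + s).choose l + (l + s).choose (l + 1) :=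
    Nat.choose_succ_succ' _ _
  have e2 : (l + s).choose (l + 1) * (l + 1) = (l + s).choose l * s := by
    rw [Nat.choose_succ_right_eq, Nat.add_sub_cancel_left]
  rw [e1] at h2 ⊢
  by_cases hc : a ≤ (l + s).choose (l + 1)
  · have h3 := hKN.lym (l + 1) (l + s) a (by omega) hc
    rw [show l + s - (l + 1) + 1 = s by omega] at h3
    generalize (l + s).choose (l + 1) = A at *
    generalize (l + s).choose l = B at *
    generalize kk (l + 1) a = k at *
    refine Nat.le_of_mul_le_mul_left ?_ hs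
    have h4 : s * (l * M + (B + A)) ≤ (s + 1) * (l + 1) * M := by nlinarith
    calc s * ((l * M + (B + A)) * a) = s * (l * M + (B + A)) * a := by ring
      _ ≤ (s + 1) * (l + 1) * M * a := Nat.mul_le_mul_right _ h4
      _ = (s + 1) * M * ((l + 1) * a) := by ring
      _ ≤ (s + 1) * M * (s * k) := Nat.mul_le_mul_left _ h3
      _ = _ := by ring
  · obtain ⟨j, rfl⟩ := Nat.exists_eq_add_of_le (not_le.1 hc).le
    have hj : j ≤ (l + s).choose l := by omega
    rw [kk_block (by omega) hj]
    have h3 := hKN.lym l (l + s) j (by omega) hj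
    rw [Nat.add_sub_cancel_left] at h3
    generalize (l + s).choose (l + 1) = A at *
    generalize (l + s).choose l = B at *
    generalize kk l j = k at *
    have h4 : (B + A) + l * (A + j) ≤ (s + 1) * (B + k) := by linarith
    calc (l * M + (B + A)) * (A + j) = l * M * (A + j) + (B + A) * (A + j) := by ring
      _ ≤ l * M * (A + j) + (B + A) * M := by gcongr
      _ = M * ((B + A) + l * (A + j)) := by ring
      _ ≤ M * ((s + 1) * (B + k)) := Nat.mul_le_mul_left _ h4
      _ = _ := by ring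

theorem rate_sum {K c e : ℕ} (g : List ℕ) (h : ∀ a ∈ g, c * a ≤ e * kk K a) :
    c * g.sum ≤ e * sk K g := by
  induction g with
  | nil => simp
  | cons x g ih =>
    have h1 := ih fun y hy => h y (List.mem_cons_of_mem _ hy)
    have h2 := h x List.mem_cons_self
    rw [List.sum_cons, sk_cons, mul_add, mul_add]
    omega

/-- full pieces and one remainder -/
theorem fill (l s D : ℕ) : ∃ h : List ℕ, (∀ a ∈ h, a ≤ (l + s + 1).choose (l + 1)) ∧ h.sum = D ∧
    (s + 1) * sk (l + 1) h ≤ (l + 1) * (D + (l + s + 1).choose (l + 1)) := by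
  have e2 : (l + s + 1).choose (l + 1) * (l + 1) = (l + s + 1).choose l * (s + 1) := by
    rw [Nat.choose_succ_right_eq]; congr 1; omega
  have e3 : kk (l + 1) ((l + s + 1).choose (l + 1)) = (l + s + 1).choose l := kk_choose (by omega)
  have hT : 0 < (l + s + 1).choose (l + 1) := Nat.choose_pos (by omega)
  generalize (l + s + 1).choose (l + 1) = T at *
  have hr := Nat.mod_lt D hT
  have h1 := hKN.mono (l + 1) _ _ hr.le
  have h2 := Nat.div_add_mod' D T
  refine ⟨List.replicate (D / T) T ++ [D % T], fun x hx => ?_, ?_, ?_⟩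
  · rcases List.mem_append.1 hx with hx | hx
    · exact (List.eq_of_mem_replicate hx).le
    · rw [List.mem_singleton.1 hx]; exact hr.le
  · rw [List.sum_append, List.sum_replicate, List.sum_singleton, smul_eq_mul, h2]
  · rw [sk_append, sk_replicate, sk_cons, sk_nil, add_zero, e3]
    rw [e3] at h1
    generalize (l + s + 1).choose l = U at *
    generalize kk (l + 1) (D % T) = k at *
    generalize D / T = q at *
    generalize D % T = r at *
    subst h2
    calc (s + 1) * (q * U + k) ≤ (s + 1) * (q * U + U) := by gcongr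
      _ = (q + 1) * (U * (s + 1)) := by ring
      _ = (l + 1) * (q * T + T) := by rw [← e2]; ring
      _ ≤ _ := by gcongr; omega

/-- all pieces but one are more than half full -/
theorem merge (K M : ℕ) (g : List ℕ) (hg : ∀ a ∈ g, a ≤ M) :
    ∃ (h : List ℕ) (r : ℕ), (∀ a ∈ h, a ≤ M) ∧ 2 * r ≤ M ∧ h.sum + r = g.sum ∧
      sk K h + kk K r ≤ sk K g ∧ (M + 1) * h.length ≤ 2 * h.sum := by
  induction g with
  | nil => exact ⟨[], 0, by simp, by simp, rfl, by simp, by simp⟩
  | cons x g ih =>
    obtain ⟨h, r, a1, a2, a3, a4, a5⟩ := ih fun y hy => hg y (List.mem_cons_of_mem _ hy)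
    have hx := hg x List.mem_cons_self
    have hs := hKN.sub K r x
    rw [List.sum_cons, sk_cons]
    by_cases c1 : M < 2 * x
    · refine ⟨x :: h, r, fun y hy => ?_, a2, ?_, ?_, ?_⟩
      · rcases List.mem_cons.1 hy with rfl | hy
        · exact hx
        · exact a1 y hy
      · rw [List.sum_cons]; omega
      · rw [sk_cons]; omega
      · rw [List.sum_cons, List.length_cons, mul_add, mul_add]; omega
    by_cases c2 : M < 2 * (r + x)
    · refine ⟨(r + x) :: h, 0, fun y hy => ?_, by omega, ?_, ?_, ?_⟩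
      · rcases List.mem_cons.1 hy with rfl | hy
        · omega
        · exact a1 y hy
      · rw [List.sum_cons]; omega
      · rw [sk_cons, kk_zero]; omega
      · rw [List.sum_cons, List.length_cons, mul_add, mul_add]; omega
    · exact ⟨h, r + x, a1, by omega, by omega, by omega, a5⟩

theorem val_eq {K M : ℕ} (g : List ℕ) (hK : 1 ≤ K) (hM : M ≤ NN K) :
    val K M g + cl K M = NB K + sk K g := by
  have e1 : (K + (K + 1)).choose (K + 1) = NB K := by rw [NB]; congr 1; ring
  have e2 : (K + (K + 1)).choose K = NB K := by rw [← e1]; exact Nat.choose_symm_add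
  have h5 := ct.nb K hK
  have h6 := hKN.dual K (K + 1) M hK (by omega)
  rw [e1, e2] at h6
  rw [val]
  omega

theorem cl_mono {K a b : ℕ} (hK : 1 ≤ K) (hab : a ≤ b) (hb : b ≤ NN K) : cl K a ≤ cl K b := by
  have h1 := val_eq (K := K) [] hK hb
  have h2 := val_eq (K := K) [] hK (hab.trans hb)
  have h3 := hKN.mono (K + 1) (NB K - b) (NB K - a) (by omega)
  rw [val] at h1 h2
  omega

theorem le_NN {l y : ℕ} (h : y ≤ 2 * l + 1) : y.choose (l + 1) ≤ NN (l + 1) :=
  Nat.choose_le_choose _ (by omega)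

/-- one window up -/
theorem up1 {l s m M d : ℕ} {g : List ℕ} (hsl : s ≤ l)
    (hm : m = NB (l + 1) + d) (hM : M ≤ (l + s + 1).choose (l + 1))
    (h : (l + 1) * (d + 2 * (l + s + 1).choose (l + 1)) ≤ (s + 1) * sk (l + 1) g) :
    ∃ g', Adm (l + 1) m ((l + s + 1).choose (l + 1)) g' ∧
      val (l + 1) ((l + s + 1).choose (l + 1)) g' ≤ val (l + 1) M g := by
  obtain ⟨g', a1, a2, a3⟩ := fill l s (d + (l + s + 1).choose (l + 1))
  refine ⟨g', ⟨le_NN (by omega), a1, by omega⟩, ?_⟩
  have h1 := hKN.mono (l + 1 + 1) (NB (l + 1) - (l + s + 1).choose (l + 1)) (NB (l + 1) - M)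
    (by omega)
  have h2 : sk (l + 1) g' ≤ sk (l + 1) g := by
    refine Nat.le_of_mul_le_mul_left (a3.trans (le_trans (le_of_eq ?_) h)) (Nat.succ_pos s)
    ring
  rw [val, val]
  omega

/-- the top window -/
theorem upTop {l m M a : ℕ} {g : List ℕ} (hl : 1 ≤ l) (hA : Adm (l + 1) m M g) (ha : a ∈ g)
    (h : (l + l).choose (l + 1) ≤ a) :
    ∃ g', Adm (l + 1) m (NN (l + 1)) g' ∧ val (l + 1) (NN (l + 1)) g' ≤ val (l + 1) M g := by
  obtain ⟨hM, hg, hs⟩ := hA
  obtain ⟨u, v, rfl⟩ := List.append_of_mem ha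
  have e0 : NN (l + 1) = (l + l + 1).choose (l + 1) := by rw [NN]; congr 1; omega
  have e1 : NN (l + 1) = (l + l).choose l + (l + l).choose (l + 1) := by
    rw [e0]; exact Nat.choose_succ_succ' _ _
  have haM := hg a ha
  obtain ⟨i, rfl⟩ := Nat.exists_eq_add_of_le h
  obtain ⟨j, rfl⟩ := Nat.exists_eq_add_of_le (h.trans haM)
  obtain ⟨e, he⟩ : ∃ e, (l + l).choose l = j + e := Nat.exists_eq_add_of_le (by omega)
  refine ⟨u ++ ((l + l).choose (l + 1) + (i + e)) :: v, ⟨le_rfl, fun y hy => ?_, ?_⟩, ?_⟩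
  · rcases List.mem_append.1 hy with hy | hy
    · exact (hg y (List.mem_append_left _ hy)).trans hM
    rcases List.mem_cons.1 hy with rfl | hy
    · omega
    · exact (hg y (List.mem_append_right _ (List.mem_cons_of_mem _ hy))).trans hM
  · rw [List.sum_append, List.sum_cons] at hs ⊢
    omega
  · have v1 := val_eq (K := l + 1) (u ++ ((l + l).choose (l + 1) + (i + e)) :: v) (by omega) le_rfl
    have v2 := val_eq (K := l + 1) (u ++ ((l + l).choose (l + 1) + i) :: v) (by omega) hM
    rw [sk_append, sk_cons, kk_block (by omega) (by omega)] at v1 v2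
    rw [cl_block hl (by omega)] at v2
    have c1 : cl (l + 1) (NN (l + 1)) = (l + l).choose (l + 1) + (l + l).choose (l + 2) := by
      rw [e0, cl_choose]; exact Nat.choose_succ_succ' _ _
    have c2 := hKN.dual l l j hl (by omega)
    rw [show (l + l).choose l - j = e by omega] at c2
    have c3 := hKN.sub l i e
    omega

/-- many pieces: a larger `M` is no worse -/
theorem step {K m M d : ℕ} {g : List ℕ} (hK : 1 ≤ K) (hA : Adm K m M g) (hm : m = NB K + d)
    (hd0 : 1 ≤ d) (hM : M < NN K) (hd : 4 * K * M ≤ d) :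
    ∃ M' g', M < M' ∧ Adm K m M' g' ∧ val K M' g' ≤ val K M g := by
  obtain ⟨l, rfl⟩ : ∃ l, K = l + 1 := ⟨K - 1, by omega⟩
  have hs : g.sum = d + M := by have := hA.2.2; omega
  have hM1 : 1 ≤ M := by
    by_contra hc
    have : g.sum = 0 := List.sum_eq_zero fun x hx => by have := hA.2.1 x hx; omega
    omega
  obtain ⟨x, h1, h2⟩ := exists_top l M
  have hx : l + 1 ≤ x := by
    by_contra hc
    have := Nat.choose_le_choose (l + 1) (show x + 1 ≤ l + 1 by omega)
    rw [Nat.choose_self] at this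
    omega
  have hx2 : x ≤ 2 * l := by
    by_contra hc
    have : NN (l + 1) ≤ x.choose (l + 1) := Nat.choose_le_choose _ (by omega)
    omega
  obtain ⟨s, rfl⟩ : ∃ s, x = l + s := ⟨x - l, by omega⟩
  have hs1 : 1 ≤ s := by omega
  have hsl : s ≤ l := by omega
  have hr := rate_sum g fun a ha => rate hs1 h1 h2.le (hA.2.1 a ha)
  rw [hs] at hr
  by_cases c1 : 3 * M ≤ 2 * (l + s + 1).choose (l + 1)
  · obtain ⟨g', b1, b2⟩ := up1 (g := g) hsl hm h2.le (by
      generalize (l + s + 1).choose (l + 1) = T at *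
      refine Nat.le_of_mul_le_mul_left (le_trans ?_ (hr.trans (le_of_eq (by ring)))) hM1
      obtain ⟨h, rfl⟩ := Nat.exists_eq_add_of_le h2.le
      have h3 : 4 * (l + 1) * M * h ≤ d * h := Nat.mul_le_mul_right _ hd
      have h4 : M * M ≤ M * (2 * h) := Nat.mul_le_mul_left _ (by omega)
      have h5 : l * (M * M) ≤ l * (M * (2 * h)) := Nat.mul_le_mul_left _ h4
      nlinarith)
    exact ⟨_, g', h2, b1, b2⟩
  rcases hsl.lt_or_eq with hsl' | rfl
  · obtain ⟨g', a1, a2, a3⟩ := fill l (s + 1) (d + (l + (s + 1) + 1).choose (l + 1))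
    have hT' : (l + (s + 1) + 1).choose (l + 1) ≤ NN (l + 1) := le_NN (by omega)
    have hTT : (l + s + 1).choose (l + 1) ≤ (l + (s + 1) + 1).choose (l + 1) :=
      Nat.choose_le_choose _ (by omega)
    refine ⟨_, g', h2.trans_le hTT, ⟨hT', a1, by omega⟩, ?_⟩
    have v1 := val_eq (K := l + 1) g' (by omega) hT'
    have v2 := val_eq (K := l + 1) g (by omega) hM.le
    have v3 := cl_mono (K := l + 1) (by omega) h2.le (hTT.trans hT')
    rw [cl_choose] at v1 v3
    have e1 : (l + (s + 1) + 1).choose (l + 2) =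
        (l + s + 1).choose (l + 1) + (l + s + 1).choose (l + 2) := Nat.choose_succ_succ' _ _
    have e2 : (l + (s + 1) + 1).choose (l + 1) * (s + 1) =
        (l + s + 1).choose (l + 1) * (l + s + 2) := by
      have := Nat.choose_mul_succ_eq (l + s + 1) (l + 1)
      rw [show l + s + 1 + 1 - (l + 1) = s + 1 by omega] at this
      exact this.symm
    suffices h : sk (l + 1) g' ≤ sk (l + 1) g + (l + s + 1).choose (l + 1) by omega
    generalize (l + (s + 1) + 1).choose (l + 1) = T' at *
    generalize (l + s + 1).choose (l + 1) = T at *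
    generalize sk (l + 1) g' = k' at *
    generalize sk (l + 1) g = k at *
    have r1 : (l + 1) * (d + M) ≤ (s + 1) * k := by
      refine Nat.le_of_mul_le_mul_left (le_trans ?_ (hr.trans (le_of_eq (by ring)))) hM1
      have : M * (d + M) ≤ T * (d + M) := Nat.mul_le_mul_right _ h2.le
      linarith
    have p1 : 6 * (l + 1) * (l + s + 2) ≤
        2 * (l + 1) * (4 * (l + 1) + s + 2) + 3 * ((s + 1) * (s + 2)) := by
      have : (0 : ℤ) ≤ (2 * (l + 1) - 3 * s) ^ 2 := sq_nonneg _
      zify
      nlinarith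
    have p2 : 2 * T * ((l + 1) * (4 * (l + 1) + s + 2)) ≤
        3 * M * ((l + 1) * (4 * (l + 1) + s + 2)) := Nat.mul_le_mul_right _ (by omega)
    have p3 := Nat.mul_le_mul_left T p1
    have p4 := Nat.mul_le_mul_left (3 * (l + 1)) hd
    have p5 := Nat.mul_le_mul_left (3 * (s + 2)) r1
    have p6 := Nat.mul_le_mul_left (3 * (s + 1)) a3
    have p7 : 6 * (l + 1) * (T' * (s + 1)) = 6 * (l + 1) * (T * (l + s + 2)) := by rw [e2]
    refine Nat.le_of_mul_le_mul_left (c := 3 * ((s + 1) * (s + 2))) ?_ (by positivity)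
    linarith
  · have e0 : NN (s + 1) = (s + s + 1).choose (s + 1) := by rw [NN]; congr 1; omega
    by_cases c2 : ∃ a ∈ g, (s + s).choose (s + 1) ≤ a
    · obtain ⟨a, ha, h⟩ := c2
      obtain ⟨g', b1, b2⟩ := upTop hs1 hA ha h
      exact ⟨_, g', hM, b1, b2⟩
    · have r1 := rate_sum (K := s + 1) (c := s + 1) (e := s) g fun a ha => by
        have := hKN.lym (s + 1) (s + s) a (by omega) (by
          by_contra hc
          exact c2 ⟨a, ha, (not_le.1 hc).le⟩)
        rwa [show s + s - (s + 1) + 1 = s by omega] at this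
      rw [hs] at r1
      obtain ⟨g', b1, b2⟩ := up1 (g := g) le_rfl hm h2.le (by
        generalize (s + s + 1).choose (s + 1) = T at *
        generalize sk (s + 1) g = k at *
        refine Nat.le_of_mul_le_mul_left ?_ hs1
        have p1 : s * (d + 2 * T) ≤ (s + 1) * (d + M) := by
          have : s * (2 * T) ≤ s * (3 * M) := Nat.mul_le_mul_left _ (by omega)
          linarith
        calc s * ((s + 1) * (d + 2 * T)) = (s + 1) * (s * (d + 2 * T)) := by ring
          _ ≤ (s + 1) * (s * k) := by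
            refine Nat.mul_le_mul_left _ (Nat.le_of_mul_le_mul_left ?_ (Nat.succ_pos s))
            nlinarith
          _ = _ := by ring)
      exact ⟨_, g', h2, b1, b2⟩

/-- the pieces fit as soon as `n ≥ 10 K + 3` -/
theorem fitLin (n K m : ℕ) (hK : 1 ≤ K) (hn : 10 * K + 3 ≤ n)
    (hmn : m + NN K * (2 * K + 2) ≤ NB K + NN K * n) (hm : NB K < m) (M : ℕ) (g : List ℕ)
    (hA : Adm K m M g) :
    ∃ M' g', Adm K m M' g' ∧ 2 * K + 1 + g'.length ≤ n ∧ val K M' g' ≤ val K M g := by
  obtain ⟨d, hd⟩ : ∃ d, m = NB K + d := Nat.exists_eq_add_of_le hm.le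
  induction h : NN K - M using Nat.strong_induction_on generalizing M g with
  | _ t ih =>
  obtain ⟨hM, hg, hs⟩ := id hA
  rcases hM.lt_or_eq with hlt | rfl
  · by_cases c : 4 * K * M ≤ d
    · obtain ⟨M', g', b1, b2, b3⟩ := step hK hA hd (by omega) hlt c
      obtain ⟨M'', g'', c1, c2, c3⟩ := ih (NN K - M') (by have := b2.1; omega) M' g' b2 rfl
      exact ⟨M'', g'', c1, c2, c3.trans b3⟩
    · obtain ⟨u, r, a1, a2, a3, a4, a5⟩ := merge K M g hg
      refine ⟨M, r :: u, ⟨hM, fun y hy => ?_, ?_⟩, ?_, ?_⟩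
      · rcases List.mem_cons.1 hy with rfl | hy
        · omega
        · exact a1 y hy
      · rw [List.sum_cons]; omega
      · have h1 : (M + 1) * u.length < (M + 1) * (8 * K + 2) := by
          have : (M + 1) * (8 * K + 2) = 2 * (4 * K * M) + 2 * M + (8 * K + 2) := by ring
          omega
        have := Nat.lt_of_mul_lt_mul_left h1
        rw [List.length_cons]
        omega
      · rw [val, val, sk_cons]; omega
  · obtain ⟨q, r, c1, c2, c3⟩ := Fit.normal hKN ct hK g hg
    have hN := TLaux.NN_pos hK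
    have e1 : NN K * (q + (2 * K + 1)) + r ≤ NN K * n := by
      have e : NN K * (2 * K + 2) = NN K * (2 * K + 1) + NN K := by ring
      rw [mul_add, mul_comm (NN K) q]
      omega
    by_cases h0 : r = 0
    · subst h0
      have := Nat.le_of_mul_le_mul_left (show NN K * (q + (2 * K + 1)) ≤ NN K * n by omega) hN
      refine ⟨NN K, List.replicate q (NN K), ⟨le_rfl, fun x hx =>
        (List.eq_of_mem_replicate hx).le, ?_⟩, ?_, ?_⟩
      · rw [List.sum_replicate, smul_eq_mul]
        omega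
      · rw [List.length_replicate]
        omega
      · rw [val, val, sk_replicate, TLaux.kk_NN ct hK]
        omega
    · have := Nat.lt_of_mul_lt_mul_left (show NN K * (q + (2 * K + 1)) < NN K * n by omega)
      refine ⟨NN K, r :: List.replicate q (NN K), ⟨le_rfl, fun x hx => ?_, ?_⟩, ?_, ?_⟩
      · rcases List.mem_cons.1 hx with rfl | hx
        · exact c1.le
        · exact (List.eq_of_mem_replicate hx).le
      · rw [List.sum_cons, List.sum_replicate, smul_eq_mul]
        omega
      · rw [List.length_cons, List.length_replicate]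
        omega
      · rw [val, val, sk_cons, sk_replicate, TLaux.kk_NN ct hK]
        omega

open scoped FinsetFamily in
/-- `H61.final` with a linear threshold -/
theorem finalLin {K m : ℕ} (hK : 1 ≤ K) (hm : NB K < m) :
    ∃ M g, Adm K m M g ∧ (∀ M' g', Adm K m M' g' → val K M g ≤ val K M' g') ∧ ∀ n : ℕ,
      (∀ 𝒜 : Finset (Finset (Fin n)), (∀ A ∈ 𝒜, A.card = K + 1) → H54.Inter 𝒜 → 𝒜.card = m →
        val K M g ≤ (∂ 𝒜).card) ∧
      ((m < n ∨ (10 * K + 3 ≤ n ∧ m + NN K * (2 * K + 2) ≤ NB K + NN K * n)) →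
        ∃ 𝒜 : Finset (Finset (Fin n)), (∀ A ∈ 𝒜, A.card = K + 1) ∧ H54.Inter 𝒜 ∧ 𝒜.card = m ∧
          (∂ 𝒜).card = val K M g) := by
  obtain ⟨M, g, h1, h2, h3⟩ := final hK hm
  refine ⟨M, g, h1, h2, fun n => ⟨(h3 n).1, fun hn => ?_⟩⟩
  rcases hn with hn | hn
  · exact (h3 n).2 (Or.inl hn)
  · obtain ⟨M', g', b1, b2, b3⟩ := fitLin n K m hK hn.1 hn.2 hm M g h1
    obtain ⟨𝒜, a1, a2, a3, a4⟩ := upperStmt initStmt ct n K m M' g' hK b1 b2
    exact ⟨𝒜, a1, a2, a3, le_antisymm (a4.trans b3) ((h3 n).1 𝒜 a1 a2 a3)⟩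

end Pool.Agent.MP_d50107_co.H25
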